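import Pool.Agent.U174.AK.Stm

/-!
# Project AK, package GM: one round of the game for ordered abelian groups, the beginning of the game, purity
-/

set_option autoImplicit false

namespace Pool.Agent.U255.AK

open Pool.Agent.U174.AK

/-! ### substitution of terms -/

/-- substitution in terms -/
def sT {Y Z : Type} (σ : Y → GT Z) : GT Y → GT Z
  | .var y => σ y
  | .zero => .zero
  | .add s t => .add (sT σ s) (sT σ t)
  | .neg s => .neg (sT σ s)

/-- substitution in formulas -/
def sQ {Y Z : Type} (σ : Y → GT Z) : GQ Y → GQ Z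
  | .eq s t => .eq (sT σ s) (sT σ t)
  | .le s t => .le (sT σ s) (sT σ t)
  | .not φ => .not (sQ σ φ)
  | .and φ ψ => .and (sQ σ φ) (sQ σ ψ)
  | .or φ ψ => .or (sQ σ φ) (sQ σ ψ)

theorem eval_sT {Y Z G : Type} [CommGroup G] (σ : Y → GT Z) (z : Z → G) (t : GT Y) :
    (sT σ t).eval z = t.eval (fun y => (σ y).eval z) := by
  induction t with
  | var y => rfl
  | zero => rfl
  | add s t hs ht => simp only [sT, GT.eval, hs, ht]
  | neg s hs => simp only [sT, GT.eval, hs]

theorem holds_sQ {Y Z G : Type} [CommGroup G] [LinearOrder G] (σ : Y → GT Z) (z : Z → G) (φ : GQ Y) :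
    GQ.holds G Z (sQ σ φ) z ↔ GQ.holds G Y φ (fun y => (σ y).eval z) := by
  induction φ with
  | eq s t => simp only [sQ, GQ.holds, eval_sT]
  | le s t => simp only [sQ, GQ.holds, eval_sT]
  | not φ h => simp only [sQ, GQ.holds, h]
  | and φ ψ h1 h2 => simp only [sQ, GQ.holds, h1, h2]
  | or φ ψ h1 h2 => simp only [sQ, GQ.holds, h1, h2]

/-- the substitution with new variables -/
def up {Y I : Type} (σ : Y → GT I) : Y ⊕ ℕ → GT (I ⊕ ℕ)
  | .inl y => sT (fun i => .var (.inl i)) (σ y)
  | .inr k => .var (.inr k)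

theorem eval_up {Y I G : Type} [CommGroup G] (σ : Y → GT I) (a : I → G) (a' : ℕ → G) :
    (fun y => (up σ y).eval (Sum.elim a a')) = Sum.elim (fun y => (σ y).eval a) a' := by
  funext y
  rcases y with y | k
  · simp only [up, Sum.elim_inl]
    rw [eval_sT]
    rfl
  · rfl

section
variable {A B : Type} [CommGroup A] [LinearOrder A] [CommGroup B] [LinearOrder B]

/-- substitution in the game -/
theorem game_sub : ∀ (n : ℕ) {Y I : Type} (σ : Y → GT I) (a : I → A) (b : I → B),
    Game (GQ.holds A) (GQ.holds B) n a b →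
    Game (GQ.holds A) (GQ.holds B) n (fun y => (σ y).eval a) (fun y => (σ y).eval b) := by
  intro n
  induction n with
  | zero =>
    intro Y I σ a b h φ
    rw [← holds_sQ, ← holds_sQ]
    exact h (sQ σ φ)
  | succ n ih =>
    intro Y I σ a b h
    unfold Game at h ⊢
    split_ifs with hn
    · rw [if_pos hn] at h
      intro a'
      obtain ⟨b', hb'⟩ := h a'
      refine ⟨b', ?_⟩
      have := ih (up σ) _ _ hb'
      rwa [eval_up, eval_up] at this
    · rw [if_neg hn] at h
      intro b'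
      obtain ⟨a', ha'⟩ := h b'
      refine ⟨a', ?_⟩
      have := ih (up σ) _ _ ha'
      rwa [eval_up, eval_up] at this

/-- reindexing -/
theorem game_ren (n : ℕ) {Y I : Type} (g : Y → I) (a : I → A) (b : I → B)
    (h : Game (GQ.holds A) (GQ.holds B) n a b) :
    Game (GQ.holds A) (GQ.holds B) n (fun y => a (g y)) (fun y => b (g y)) :=
  game_sub n (fun y => GT.var (g y)) a b h

/-- the quantifier-free formulas -/
theorem game_qf : ∀ (n : ℕ) {I : Type} (a : I → A) (b : I → B),
    Game (GQ.holds A) (GQ.holds B) n a b → ∀ φ : GQ I, GQ.holds A I φ a ↔ GQ.holds B I φ b := by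
  intro n
  induction n with
  | zero =>
    intro I a b h φ
    exact h φ
  | succ n ih =>
    intro I a b h φ
    unfold Game at h
    have key : ∀ (a' : ℕ → A) (b' : ℕ → B),
        Game (GQ.holds A) (GQ.holds B) n (Sum.elim a a') (Sum.elim b b') →
        (GQ.holds A I φ a ↔ GQ.holds B I φ b) := by
      intro a' b' hab
      have h1 := ih _ _ hab (sQ (fun i => GT.var (Sum.inl i)) φ)
      rw [holds_sQ, holds_sQ] at h1
      exact h1
    split_ifs at h with hn
    · obtain ⟨b', hb'⟩ := h (fun _ => 1)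
      exact key _ _ hb'
    · obtain ⟨a', ha'⟩ := h (fun _ => 1)
      exact key _ _ ha'

end

/-- the construction of the second homomorphism -/
theorem core (κ κ' A B : Type) [CommGroup κ] [CommGroup κ'] [LinearOrder κ']
    [CommGroup A] [LinearOrder A] [CommGroup B] [LinearOrder B]
    (e : κ →* κ') (s : ℕ → κ') (r : κ' → ℕ) (hsr : ∀ x, s (r x) = x)
    (a : κ → A) (b : κ → B) (a' : κ' →* A) (ha' : StrictMono a') (hae : ∀ x, a' (e x) = a x) (c : ℕ → B)
    (H : ∀ φ : GQ (κ ⊕ ℕ), GQ.holds A _ φ (Sum.elim a (fun k => a' (s k))) ↔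
      GQ.holds B _ φ (Sum.elim b c)) :
    ∃ b' : κ' →* B, StrictMono b' ∧ (∀ x, b' (e x) = b x) ∧ ∀ x, b' x = c (r x) := by
  have hmul : ∀ x y, c (r (x * y)) = c (r x) * c (r y) := by
    intro x y
    have h := (H (.eq (.var (.inr (r (x * y)))) (.add (.var (.inr (r x))) (.var (.inr (r y)))))).1
    simp only [GQ.holds, GT.eval, Sum.elim_inr, hsr] at h
    exact h (map_mul a' x y)
  refine ⟨MonoidHom.mk' (fun x => c (r x)) hmul, ?_, ?_, fun x => rfl⟩
  · intro x y hxy
    have h := H (.le (.var (.inr (r x))) (.var (.inr (r y))))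
    simp only [GQ.holds, GT.eval, Sum.elim_inr, hsr] at h
    have h1 : ¬ a' y ≤ a' x := not_le.2 (ha' hxy)
    exact not_le.1 fun h2 => h1 (h.2 h2)
  · intro x
    have h := (H (.eq (.var (.inr (r (e x)))) (.var (.inl x)))).1
    simp only [GQ.holds, GT.eval, Sum.elim_inr, Sum.elim_inl, hsr] at h
    exact h (hae x)

theorem t_GMOV : S_SYN → S_GMOV := by
  intro _ κ κ' A B _ _ _ _ _ _ _ _ _ _ _ _ e hc n
  obtain ⟨s, hs⟩ := exists_surjective_nat κ'
  choose r hr using hs
  constructor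
  · intro hn a b a' hmono hae h
    unfold Game at h
    rw [if_pos hn] at h
    obtain ⟨c, hc'⟩ := h (fun k => a' (s k))
    obtain ⟨b', h1, h2, h3⟩ := core κ κ' A B e s r hr (fun x => a x) (fun x => b x) a' hmono hae c
      (game_qf n _ _ hc')
    refine ⟨b', h1, h2, ?_⟩
    have h4 := game_ren n (fun x : κ' => (Sum.inr (r x) : κ ⊕ ℕ)) _ _ hc'
    simp only [Sum.elim_inr, hr] at h4
    have h5 : (fun x => b' x) = fun x => c (r x) := funext h3
    rw [h5]
    exact h4
  · intro hn a b b' hmono hbe h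
    unfold Game at h
    rw [if_neg hn] at h
    obtain ⟨c, hc'⟩ := h (fun k => b' (s k))
    obtain ⟨a', h1, h2, h3⟩ := core κ κ' B A e s r hr (fun x => b x) (fun x => a x) b' hmono hbe c
      (fun φ => (game_qf n _ _ hc' φ).symm)
    refine ⟨a', h1, h2, ?_⟩
    have h4 := game_ren n (fun x : κ' => (Sum.inr (r x) : κ ⊕ ℕ)) _ _ hc'
    simp only [Sum.elim_inr, hr] at h4
    have h5 : (fun x => a' x) = fun x => c (r x) := funext h3
    rw [h5]
    exact h4

theorem t_GBASE : S_SYN → S_GBASE := by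
  intro _ κ A B _ _ _ _ _ _ n _ h
  exact game_sub n (fun _ : κ => (GT.zero : GT Empty)) _ _ h

/-- the multiple of a term -/
def pw {Z : Type} (t : GT Z) : ℕ → GT Z
  | 0 => .zero
  | m + 1 => .add (pw t m) t

theorem eval_pw {Z G : Type} [CommGroup G] (z : Z → G) (t : GT Z) (m : ℕ) :
    (pw t m).eval z = (t.eval z) ^ m := by
  induction m with
  | zero => simp [pw, GT.eval]
  | succ m ih => simp only [pw, GT.eval, ih, pow_succ]

/-- the argument for purity -/
theorem pure_core (κ A B : Type) [CommGroup A] [LinearOrder A] [CommGroup B] [LinearOrder B]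
    (a : κ → A) (b : κ → B) (γ : A) (c : ℕ → B)
    (H : ∀ φ : GQ (κ ⊕ ℕ), GQ.holds A _ φ (Sum.elim a (fun _ => γ)) ↔ GQ.holds B _ φ (Sum.elim b c))
    (hp : ∀ (γ : B) (m : ℕ), 0 < m → γ ^ m ∈ Set.range b → γ ∈ Set.range b)
    (m : ℕ) (hm : 0 < m) (h : γ ^ m ∈ Set.range a) : γ ∈ Set.range a := by
  obtain ⟨x, hx⟩ := h
  have h1 := (H (.eq (.var (.inl x)) (pw (.var (.inr 0)) m))).1
  simp only [GQ.holds, eval_pw, GT.eval, Sum.elim_inr, Sum.elim_inl] at h1
  obtain ⟨y, hy⟩ := hp (c 0) m hm ⟨x, h1 hx⟩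
  have h2 := (H (.eq (.var (.inl y)) (.var (.inr 0)))).2
  simp only [GQ.holds, GT.eval, Sum.elim_inr, Sum.elim_inl] at h2
  exact ⟨y, h2 hy⟩

theorem t_PUR : S_SYN → S_PUR := by
  intro _ κ A B _ _ _ _ _ _ _ _ _ n a b hn _ _ h
  obtain ⟨k, rfl⟩ : ∃ k, n = k + 1 := ⟨n - 1, by omega⟩
  unfold Game at h
  constructor
  · intro ho hp γ m hm hγ
    rw [if_pos ho] at h
    obtain ⟨c, hc⟩ := h (fun _ => γ)
    exact pure_core κ A B (fun x => a x) (fun x => b x) γ c (game_qf k _ _ hc) hp m hm hγ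
  · intro ho hp γ m hm hγ
    rw [if_neg ho] at h
    obtain ⟨c, hc⟩ := h (fun _ => γ)
    exact pure_core κ B A (fun x => b x) (fun x => a x) γ c (fun φ => (game_qf k _ _ hc φ).symm) hp m hm hγ

end Pool.Agent.U255.AK
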